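import Pool.Agent.W2helper22.AL.Up

/-! Project AL, piece NEG. -/

set_option autoImplicit false

namespace Pool.Agent.W2helper19.AL

open Finset Pool.Agent.W2helper22.AL

variable {I : Type} {h s : ℕ} {c : ℕ → ℕ} {F : Set (((I → Bool) → Bool) × ℕ)}

lemma and' (hA : Av h s c F) {f g : (I → Bool) → Bool} {l : ℕ} (hf : ∃ i ≤ l, (f, i) ∈ F)
    (hg : ∃ i ≤ l, (g, i) ∈ F) (hl : l ≤ h) : Av h (s + 1) c (insert (fun x => f x && g x, l) F) := by
  have h1 : Av h s c (insert (f, l) (insert (g, l) F)) := hA.mono le_rfl (fun _ => le_rfl) (by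
    rintro q (rfl | rfl | hq)
    · exact hf
    · exact hg
    · exact ⟨q.2, le_rfl, hq⟩)
  exact (h1.and (l := l) (Or.inl rfl) (Or.inr (Or.inl rfl)) hl).mono le_rfl (fun _ => le_rfl) (by
    rintro q (rfl | hq)
    · exact ⟨_, le_rfl, Or.inl rfl⟩
    · exact ⟨q.2, le_rfl, Or.inr (Or.inr (Or.inr hq))⟩)

lemma or' (hA : Av h s c F) {f g : (I → Bool) → Bool} {l : ℕ} (hf : ∃ i ≤ l, (f, i) ∈ F)
    (hg : ∃ i ≤ l, (g, i) ∈ F) (hl : l ≤ h) : Av h (s + 1) c (insert (fun x => f x || g x, l) F) := by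
  have h1 : Av h s c (insert (f, l) (insert (g, l) F)) := hA.mono le_rfl (fun _ => le_rfl) (by
    rintro q (rfl | rfl | hq)
    · exact hf
    · exact hg
    · exact ⟨q.2, le_rfl, hq⟩)
  exact (h1.or (l := l) (Or.inl rfl) (Or.inr (Or.inl rfl)) hl).mono le_rfl (fun _ => le_rfl) (by
    rintro q (rfl | hq)
    · exact ⟨_, le_rfl, Or.inl rfl⟩
    · exact ⟨q.2, le_rfl, Or.inr (Or.inr (Or.inr hq))⟩)

lemma stageA {r : (I → Bool) → ℕ} {B b : ℕ} (hA : Av h s c F) (hb : b + 1 ≤ h)
    (hF : ∀ k, ((fun x => decide (k ≤ r x)), b) ∈ F) : ∀ m : ℕ,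
    Av h (s + m) (fun l => c l + if l = b + 1 then m else 0)
      (F ∪ {q | ∃ j, 1 ≤ j ∧ j ≤ m ∧ q = ((fun x => decide (r x < j * B)), b + 1)}) := by
  intro m
  induction m with
  | zero =>
    refine hA.mono (by simp) (fun l => by simp) ?_
    rintro q (hq | ⟨j, h1, h2, _⟩)
    · exact ⟨q.2, le_rfl, hq⟩
    · omega
  | succ m ih =>
    have h1 := ih.not (f := fun x => decide ((m + 1) * B ≤ r x)) (i := b) (l := b + 1)
      (Or.inl (hF _)) (by omega) hb
    refine h1.mono (by omega) (fun l => ?_) ?_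
    · by_cases hl : l = b + 1
      · simp only [if_pos hl]; omega
      · simp only [if_neg hl]; omega
    · rintro q (hq | ⟨j, h2, h3, rfl⟩)
      · exact ⟨q.2, le_rfl, Or.inr (Or.inl hq)⟩
      · rcases Nat.lt_succ_iff_lt_or_eq.mp (Nat.lt_succ_of_le h3) with h4 | h4
        · exact ⟨b + 1, le_rfl, Or.inr (Or.inr ⟨j, h2, by omega, rfl⟩)⟩
        · refine ⟨b + 1, le_rfl, Or.inl ?_⟩
          subst h4
          refine Prod.ext (funext fun x => ?_) rfl
          show decide (r x < (m + 1) * B) = !(decide ((m + 1) * B ≤ r x))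
          rw [← decide_not]
          exact decide_eq_decide.mpr (not_le).symm

lemma stageA' {r : (I → Bool) → ℕ} {B b T : ℕ} (hA : Av h s c F) (hb : b + 1 ≤ h)
    (hr : ∀ x, r x < (T + 1) * B)
    (hF : ∀ k, ((fun x => decide (k ≤ r x)), b) ∈ F) :
    Av h (s + T + 2) (fun l => c l + if l = b + 1 then T else 0)
      (F ∪ {q | ∃ j, j ≤ T + 1 ∧ q = ((fun x => decide (r x < j * B)), b + 1)}) := by
  have h1 := ((stageA (B := B) hA hb hF T).const false).const true
  refine h1.mono (by omega) (fun _ => le_rfl) ?_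
  rintro q (hq | ⟨j, h2, rfl⟩)
  · exact ⟨q.2, le_rfl, Or.inr (Or.inr (Or.inl hq))⟩
  · rcases Nat.eq_zero_or_pos j with h3 | h3
    · refine ⟨0, Nat.zero_le _, Or.inr (Or.inl ?_)⟩
      subst h3
      refine Prod.ext (funext fun x => ?_) rfl
      show decide (r x < 0 * B) = false
      simp
    · rcases Nat.lt_succ_iff_lt_or_eq.mp (Nat.lt_succ_of_le h2) with h4 | h4
      · exact ⟨b + 1, le_rfl, Or.inr (Or.inr (Or.inr ⟨j, h3, by omega, rfl⟩))⟩
      · refine ⟨0, Nat.zero_le _, Or.inl ?_⟩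
        subst h4
        refine Prod.ext (funext fun x => ?_) rfl
        show decide (r x < (T + 1) * B) = true
        simp [hr x]

lemma mod_iff {B T k r : ℕ} (hk : k < B) (hr : r < (T + 1) * B) :
    (∃ j < T + 1, j * B + k ≤ r ∧ r < (j + 1) * B) ↔ k ≤ r % B := by
  have hB : 0 < B := by omega
  constructor
  · rintro ⟨j, _, h1, h2⟩
    obtain ⟨m, rfl⟩ := Nat.exists_eq_add_of_le (show j * B ≤ r by omega)
    have h3 : m < B := by
      rw [Nat.add_mul, one_mul] at h2
      omega
    rw [Nat.mul_add_mod_of_lt h3]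
    omega
  · intro h1
    refine ⟨r / B, Nat.div_lt_of_lt_mul (by rw [mul_comm]; exact hr), ?_, ?_⟩
    · have := Nat.div_add_mod r B
      rw [mul_comm] at this
      omega
    · rw [mul_comm]
      exact Nat.lt_mul_div_succ r hB

lemma lt_iff {B k r : ℕ} (hB : 0 < B) :
    (r < k / B * B ∨ (r < (k / B + 1) * B ∧ r % B < k % B)) ↔ r < k := by
  have h1 := Nat.div_add_mod k B
  have h2 := Nat.mod_lt k hB
  rw [mul_comm] at h1
  constructor
  · rintro (h | ⟨h3, h4⟩)
    · omega
    · by_cases h5 : k / B * B ≤ r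
      · obtain ⟨m, rfl⟩ := Nat.exists_eq_add_of_le h5
        have h6 : m < B := by
          rw [Nat.add_mul, one_mul] at h3
          omega
        rw [Nat.mul_add_mod_of_lt h6] at h4
        omega
      · omega
  · intro h
    by_cases h5 : k / B * B ≤ r
    · right
      have h3 : r < (k / B + 1) * B := by
        rw [Nat.add_mul, one_mul]
        omega
      refine ⟨h3, ?_⟩
      obtain ⟨m, rfl⟩ := Nat.exists_eq_add_of_le h5
      have h6 : m < B := by
        rw [Nat.add_mul, one_mul] at h3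
        omega
      rw [Nat.mul_add_mod_of_lt h6]
      omega
    · left
      omega

/-- one threshold of `r x % B` -/
lemma chainB {r : (I → Bool) → ℕ} {B b T k : ℕ} (hb : b + 1 ≤ h)
    (hF : ∀ k, ∃ i ≤ b + 1, ((fun x => decide (k ≤ r x)), i) ∈ F)
    (hN : ∀ j ≤ T + 1, ∃ i ≤ b + 1, ((fun x => decide (r x < j * B)), i) ∈ F)
    (hA : Av h s c F) : ∀ m ≤ T + 1, Av h (s + (2 * m + 1)) c
      (insert (fun x => decide (∃ j < m, j * B + k ≤ r x ∧ r x < (j + 1) * B), b + 1) F) := by
  intro m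
  induction m with
  | zero =>
    intro _
    refine (hA.const false).mono (by omega) (fun _ => le_rfl) ?_
    rintro q (rfl | hq)
    · refine ⟨0, Nat.zero_le _, Or.inl ?_⟩
      refine Prod.ext (funext fun x => ?_) rfl
      have e : ¬ (∃ j < 0, j * B + k ≤ r x ∧ r x < (j + 1) * B) := by
        rintro ⟨j, hj, _⟩
        omega
      exact decide_eq_false e
    · exact ⟨q.2, le_rfl, Or.inr hq⟩
  | succ m ih =>
    intro hm
    have h0 := ih (by omega)
    obtain ⟨i1, hi1, hF1⟩ := hF (m * B + k)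
    obtain ⟨i2, hi2, hN1⟩ := hN (m + 1) hm
    have h1 := and' h0 (l := b + 1) ⟨i1, hi1, Or.inr hF1⟩ ⟨i2, hi2, Or.inr hN1⟩ hb
    have h2 := or' h1 (l := b + 1) ⟨b + 1, le_rfl, Or.inr (Or.inl rfl)⟩ ⟨b + 1, le_rfl, Or.inl rfl⟩ hb
    refine h2.mono (by omega) (fun _ => le_rfl) ?_
    rintro q (rfl | hq)
    · refine ⟨b + 1, le_rfl, Or.inl ?_⟩
      refine Prod.ext (funext fun x => ?_) rfl
      show decide (∃ j < m + 1, j * B + k ≤ r x ∧ r x < (j + 1) * B) =
        (decide (∃ j < m, j * B + k ≤ r x ∧ r x < (j + 1) * B) ||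
          (decide (m * B + k ≤ r x) && decide (r x < (m + 1) * B)))
      rw [← Bool.decide_and, ← Bool.decide_or]
      apply decide_eq_decide.mpr
      constructor
      · rintro ⟨j, hj, hj2⟩
        rcases Nat.lt_succ_iff_lt_or_eq.mp hj with h4 | h4
        · exact Or.inl ⟨j, h4, hj2⟩
        · subst h4; exact Or.inr hj2
      · rintro (⟨j, hj, hj2⟩ | h4)
        · exact ⟨j, by omega, hj2⟩
        · exact ⟨m, by omega, h4⟩
    · exact ⟨q.2, le_rfl, Or.inr (Or.inr (Or.inr hq))⟩

/-- the thresholds of `r x % B` -/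
lemma stageB {r : (I → Bool) → ℕ} {B b T : ℕ} (hB : 0 < B) (hb : b + 1 ≤ h)
    (hr : ∀ x, r x < (T + 1) * B)
    (hF : ∀ k, ∃ i ≤ b + 1, ((fun x => decide (k ≤ r x)), i) ∈ F)
    (hN : ∀ j ≤ T + 1, ∃ i ≤ b + 1, ((fun x => decide (r x < j * B)), i) ∈ F)
    (hA : Av h s c F) : Av h (s + (2 * (T + 1) + 1) * B) c
      (F ∪ {q | ∃ k, q = ((fun x => decide (k ≤ r x % B)), b + 1)}) := by
  have h1 := Av.family (r := 2 * (T + 1) + 1)
    (fun k => ((fun x => decide (k ≤ r x % B)), b + 1)) B hA (by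
      intro s' F' k hk hFF _ hA'
      refine (chainB (k := k) (T := T) (B := B) (r := r) hb
        (fun k => by obtain ⟨i, h1, h2⟩ := hF k; exact ⟨i, h1, hFF h2⟩)
        (fun j hj => by obtain ⟨i, h1, h2⟩ := hN j hj; exact ⟨i, h1, hFF h2⟩) hA'
        (T + 1) le_rfl).mono le_rfl (fun _ => le_rfl) ?_
      rintro q (rfl | hq)
      · refine ⟨b + 1, le_rfl, Or.inl ?_⟩
        refine Prod.ext (funext fun x => ?_) rfl
        exact decide_eq_decide.mpr (mod_iff hk (hr x)).symm
      · exact ⟨q.2, le_rfl, Or.inr hq⟩)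
  refine h1.mono le_rfl (fun _ => le_rfl) ?_
  rintro q (hq | ⟨k, rfl⟩)
  · exact ⟨q.2, le_rfl, Or.inl hq⟩
  · by_cases hk : k < B
    · exact ⟨b + 1, le_rfl, Or.inr ⟨k, hk, rfl⟩⟩
    · obtain ⟨i, hi1, hi2⟩ := hN 0 (Nat.zero_le _)
      refine ⟨i, hi1, Or.inl ?_⟩
      have e : (fun x => decide (k ≤ r x % B)) = (fun x => decide (r x < 0 * B)) := by
        funext x
        have h3 := Nat.mod_lt (r x) hB
        rw [decide_eq_false (by omega), decide_eq_false (by omega)]
      rw [← e] at hi2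
      exact hi2

theorem neg : S_NEG := by
  intro I t n
  induction n with
  | zero =>
    intro h b s M c F r _ hr hM hF hA
    have h0 : ∀ x, r x = 0 := by
      intro x
      have := hr x
      simp at hM
      omega
    have h1 := (hA.const false).const true
    refine h1.mono ?_ (fun l => ?_) ?_
    · simp; omega
    · omega
    · rintro q (hq | ⟨k, rfl⟩)
      · exact ⟨q.2, le_rfl, Or.inr (Or.inr hq)⟩
      · rcases Nat.eq_zero_or_pos k with hk | hk
        · refine ⟨0, Nat.zero_le _, Or.inr (Or.inl ?_)⟩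
          refine Prod.ext (funext fun x => ?_) rfl
          show decide (r x < k) = false
          exact decide_eq_false (by omega)
        · refine ⟨0, Nat.zero_le _, Or.inl ?_⟩
          refine Prod.ext (funext fun x => ?_) rfl
          show decide (r x < k) = true
          rw [h0 x]
          exact decide_eq_true hk
  | succ n ih =>
    intro h b s M c F r hb hr hM hF hA
    obtain ⟨T, hT⟩ : ∃ T, T = t b := ⟨_, rfl⟩
    have hM1 : 1 ≤ M := by
      have := hr (fun _ => false)
      omega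
    obtain ⟨B, hBdef⟩ : ∃ B, B = (M + T) / (T + 1) := ⟨_, rfl⟩
    have hBT : B * (T + 1) ≤ M + T := by
      rw [hBdef]; exact Nat.div_mul_le_self _ _
    have hMB : M ≤ (T + 1) * B := by
      have h1 : M + T < (T + 1) * (B + 1) := by
        rw [hBdef]; exact Nat.lt_mul_div_succ _ (Nat.succ_pos _)
      have h2 : (T + 1) * (B + 1) = (T + 1) * B + (T + 1) := by ring
      omega
    have hB0 : 0 < B := by
      rcases Nat.eq_zero_or_pos B with h1 | h1
      · rw [h1, mul_zero] at hMB
        omega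
      · exact h1
    have hBM : B ≤ M := by
      have h2 : B * (T + 1) = B * T + B := by ring
      have h3 : T ≤ B * T := Nat.le_mul_of_pos_left T hB0
      omega
    have hr' : ∀ x, r x < (T + 1) * B := fun x => lt_of_lt_of_le (hr x) hMB
    -- the product
    have hP : B ≤ ∏ j ∈ range n, (t (b + 1 + j) + 1) := by
      rw [Finset.prod_range_succ'] at hM
      have e : ∏ k ∈ range n, (t (b + (k + 1)) + 1) = ∏ j ∈ range n, (t (b + 1 + j) + 1) :=
        Finset.prod_congr rfl (fun j _ => by rw [show b + (j + 1) = b + 1 + j by omega])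
      rw [e] at hM
      change M ≤ (∏ j ∈ range n, (t (b + 1 + j) + 1)) * (t b + 1) at hM
      rw [← hT] at hM
      rw [hBdef]
      refine Nat.lt_succ_iff.mp (Nat.div_lt_of_lt_mul ?_)
      have h2 : (T + 1) * ((∏ j ∈ range n, (t (b + 1 + j) + 1)) + 1) =
        (∏ j ∈ range n, (t (b + 1 + j) + 1)) * (T + 1) + (T + 1) := by ring
      show M + T < (T + 1) * ((∏ j ∈ range n, (t (b + 1 + j) + 1)) + 1)
      omega
    have hS : ∑ j ∈ range (n + 1), t (b + j) = ∑ j ∈ range n, t (b + 1 + j) + T := by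
      rw [Finset.sum_range_succ', Nat.add_zero, ← hT]
      congr 1
      exact Finset.sum_congr rfl (fun j _ => by rw [show b + (j + 1) = b + 1 + j by omega])
    have hA1 := stageA' (T := T) (B := B) hA (by omega) hr' hF
    have hA2 := stageB (r := r) (B := B) (b := b) (T := T) hB0 (by omega) hr'
      (fun k => ⟨b, Nat.le_succ _, Or.inl (hF k)⟩)
      (fun j hj => ⟨b + 1, le_rfl, Or.inr ⟨j, hj, rfl⟩⟩) hA1
    have hA3 := ih h (b + 1) _ B _ _ (fun x => r x % B) (by omega) (fun x => Nat.mod_lt _ hB0) hP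
      (fun k => Or.inr ⟨k, rfl⟩) hA2
    have hA4 := Av.family (r := 2)
      (fun k => ((fun x => decide (r x < k)), b + (n + 1))) M hA3 (by
        intro s' F' k hk hFF _ hA'
        have hkB : k / B ≤ T := by
          have : k < B * (T + 1) := by rw [mul_comm]; omega
          exact Nat.lt_succ_iff.mp (Nat.div_lt_of_lt_mul this)
        have h1 := and' hA' (l := b + (n + 1)) (f := fun x => decide (r x < (k / B + 1) * B))
          (g := fun x => decide (r x % B < k % B))
          ⟨b + 1, by omega, hFF (Or.inl (Or.inl (Or.inr ⟨k / B + 1, by omega, rfl⟩)))⟩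
          ⟨b + 1 + n, by omega, hFF (Or.inr ⟨k % B, rfl⟩)⟩ hb
        have h2 := or' h1 (l := b + (n + 1)) (f := fun x => decide (r x < k / B * B))
          ⟨b + 1, by omega, Or.inr (hFF (Or.inl (Or.inl (Or.inr ⟨k / B, by omega, rfl⟩))))⟩
          ⟨b + (n + 1), le_rfl, Or.inl rfl⟩ hb
        refine h2.mono (by omega) (fun _ => le_rfl) ?_
        rintro q (rfl | hq)
        · refine ⟨b + (n + 1), le_rfl, Or.inl ?_⟩
          refine Prod.ext (funext fun x => ?_) rfl
          show decide (r x < k) = (decide (r x < k / B * B) ||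
            (decide (r x < (k / B + 1) * B) && decide (r x % B < k % B)))
          rw [← Bool.decide_and, ← Bool.decide_or]
          exact decide_eq_decide.mpr (lt_iff hB0).symm
        · exact ⟨q.2, le_rfl, Or.inr (Or.inr hq)⟩)
    refine hA4.mono ?_ (fun l => ?_) ?_
    · rw [hS]
      have e1 : 8 * (M + 1 + (∑ j ∈ range n, t (b + 1 + j) + T)) * (n + 1 + 1) =
        8 * (M + 1 + (∑ j ∈ range n, t (b + 1 + j) + T)) * (n + 1) +
          8 * (M + 1 + (∑ j ∈ range n, t (b + 1 + j) + T)) := by ring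
      have e2 : 8 * (B + 1 + ∑ j ∈ range n, t (b + 1 + j)) * (n + 1) ≤
        8 * (M + 1 + (∑ j ∈ range n, t (b + 1 + j) + T)) * (n + 1) :=
        Nat.mul_le_mul_right _ (Nat.mul_le_mul_left _ (by omega))
      have e3 : (2 * (T + 1) + 1) * B = 2 * (B * (T + 1)) + B := by ring
      rw [e1, e3]
      omega
    · by_cases h1 : l = b + 1
      · subst h1
        have e1 : ¬ (b + 1 < b + 1 ∧ b + 1 ≤ b + 1 + n) := by omega
        have e2 : b < b + 1 ∧ b + 1 ≤ b + (n + 1) := by omega
        show c (b + 1) + (if b + 1 = b + 1 then T else 0) +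
          (if b + 1 < b + 1 ∧ b + 1 ≤ b + 1 + n then t (b + 1 - 1) else 0) ≤
          c (b + 1) + if b < b + 1 ∧ b + 1 ≤ b + (n + 1) then t (b + 1 - 1) else 0
        rw [if_pos rfl, if_neg e1, if_pos e2, Nat.add_sub_cancel, hT]
        omega
      · show c l + (if l = b + 1 then T else 0) +
          (if b + 1 < l ∧ l ≤ b + 1 + n then t (l - 1) else 0) ≤
          c l + if b < l ∧ l ≤ b + (n + 1) then t (l - 1) else 0
        rw [if_neg h1]
        by_cases h2 : b + 1 < l ∧ l ≤ b + 1 + n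
        · rw [if_pos h2, if_pos (by omega)]
          omega
        · rw [if_neg h2]
          omega
    · rintro q (hq | ⟨k, rfl⟩)
      · exact ⟨q.2, le_rfl, Or.inl (Or.inl (Or.inl (Or.inl hq)))⟩
      · by_cases hk : k < M
        · exact ⟨b + (n + 1), le_rfl, Or.inr ⟨k, hk, rfl⟩⟩
        · refine ⟨b + 1, by show b + 1 ≤ b + (n + 1); omega,
            Or.inl (Or.inl (Or.inl (Or.inr ⟨T + 1, le_rfl, ?_⟩)))⟩
          refine Prod.ext (funext fun x => ?_) rfl
          show decide (r x < k) = decide (r x < (T + 1) * B)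
          rw [decide_eq_true (hr' x), decide_eq_true (lt_of_lt_of_le (hr x) (by omega))]

end Pool.Agent.W2helper19.AL
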